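import Mathlib
import Pool.Agent.helper30.OC.BB3a
import Pool.Agent.helper30.OC.BB3b
import Pool.Agent.helper22.OC.BB6a
import Pool.Agent.helper12.OC.BB3e
import Pool.Agent.helper7.JT.Defs

/-!
# Project JT (MP_ebc808_nt), module LW: real characters in long windows

An elementary proof that a real character takes the value `-1` on a positive proportion of the
primes of the window `(V, V ^ 10]`, if the modulus is a small power of `V`.
-/

set_option autoImplicit false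

open Finset

namespace Pool.Agent.helper7.JT

open OC
open ArithmeticFunction (vonMangoldt)

/-! ### the function `r = prin * ψ` -/

/-- `prin * ψ` -/
noncomputable def lwR (q : ℕ) (ψ : ℕ → ℝ) : ArithmeticFunction ℝ := toAF (prin q) * toAF ψ

theorem lw_nonneg {q : ℕ} {ψ : ℕ → ℝ} (h : RC q ψ) (n : ℕ) : 0 ≤ lwR q ψ n := by
  unfold lwR
  rw [ArithmeticFunction.mul_apply]
  rcases Nat.eq_zero_or_pos n with rfl | hn0
  · simp
  by_cases hn : n.Coprime q
  · have h1 : ∑ x ∈ n.divisorsAntidiagonal, toAF (prin q) x.1 * toAF ψ x.2 = bb3a_r ψ n := by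
      unfold bb3a_r
      rw [← Nat.sum_divisorsAntidiagonal' (f := fun _ b => ψ b)]
      refine sum_congr rfl fun x hx => ?_
      rw [Nat.mem_divisorsAntidiagonal] at hx
      have hx0 : x.1 ≠ 0 := by rintro h0; rw [h0, zero_mul] at hx; exact hn0.ne' hx.1.symm
      have hc : x.1.Coprime q := Nat.Coprime.coprime_dvd_left ⟨x.2, hx.1.symm⟩ hn
      rw [bb3b_toAF' _ _ hx0, bb3b_toAF h]
      unfold prin
      rw [if_pos hc, one_mul]
    rw [h1]
    exact bb3a_r_nonneg h n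
  · obtain ⟨p, hp, hpn, hpq⟩ := Nat.Prime.not_coprime_iff_dvd.1 hn
    refine le_of_eq (sum_eq_zero fun x hx => ?_).symm
    rw [Nat.mem_divisorsAntidiagonal] at hx
    rw [← hx.1] at hpn
    rcases (Nat.Prime.dvd_mul hp).1 hpn with h1 | h1
    · have h2 : ¬ x.1.Coprime q := Nat.Prime.not_coprime_iff_dvd.2 ⟨p, hp, h1, hpq⟩
      have h3 : toAF (prin q) x.1 = 0 := by
        show (if x.1 = 0 then (0 : ℝ) else prin q x.1) = 0
        unfold prin
        rw [if_neg h2]; simp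
      rw [h3, zero_mul]
    · have h2 : ¬ x.2.Coprime q := Nat.Prime.not_coprime_iff_dvd.2 ⟨p, hp, h1, hpq⟩
      have h3 : ψ x.2 = 0 := by
        by_contra h4
        exact h2 ((h.supp _).1 h4)
      rw [bb3b_toAF h, h3, mul_zero]

theorem lw_one {q : ℕ} {ψ : ℕ → ℝ} (h : RC q ψ) : lwR q ψ 1 = 1 := by
  unfold lwR
  rw [ArithmeticFunction.mul_apply]
  simp [toAF, prin, h.one]

theorem lw_D (f g : ArithmeticFunction ℝ) :
    (f * g).pmul ArithmeticFunction.log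
      = f.pmul ArithmeticFunction.log * g + f * g.pmul ArithmeticFunction.log := by
  ext n
  rw [ArithmeticFunction.pmul_apply, ArithmeticFunction.add_apply, ArithmeticFunction.mul_apply,
    ArithmeticFunction.mul_apply, ArithmeticFunction.mul_apply, sum_mul, ← sum_add_distrib]
  refine sum_congr rfl fun x hx => ?_
  rw [Nat.mem_divisorsAntidiagonal] at hx
  obtain ⟨h1, h2⟩ := hx
  have h3 : x.1 ≠ 0 := by rintro h; rw [h, zero_mul] at h1; exact h2 h1.symm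
  have h4 : x.2 ≠ 0 := by rintro h; rw [h, mul_zero] at h1; exact h2 h1.symm
  rw [ArithmeticFunction.pmul_apply, ArithmeticFunction.pmul_apply, ArithmeticFunction.log_apply,
    ArithmeticFunction.log_apply, ArithmeticFunction.log_apply, ← h1, Nat.cast_mul,
    Real.log_mul (by exact_mod_cast h3) (by exact_mod_cast h4)]
  ring

theorem lw_cm {ψ : ℕ → ℝ} (h : bb3d_CM ψ) :
    (toAF ψ).pmul ArithmeticFunction.log = (toAF ψ).pmul vonMangoldt * toAF ψ := by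
  ext n
  rcases Nat.eq_zero_or_pos n with rfl | hn
  · simp
  rw [ArithmeticFunction.pmul_apply, ArithmeticFunction.mul_apply, ArithmeticFunction.log_apply,
    ← ArithmeticFunction.vonMangoldt_sum, ← Nat.sum_divisorsAntidiagonal (f := fun a _ => vonMangoldt a),
    mul_sum]
  refine sum_congr rfl fun x hx => ?_
  rw [Nat.mem_divisorsAntidiagonal] at hx
  obtain ⟨h1, h2⟩ := hx
  have h3 : x.1 ≠ 0 := by rintro h; rw [h, zero_mul] at h1; exact h2 h1.symm
  have h4 : x.2 ≠ 0 := by rintro h; rw [h, mul_zero] at h1; exact h2 h1.symm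
  rw [ArithmeticFunction.pmul_apply, bb3b_toAF' _ _ h3, bb3b_toAF' _ _ h4, bb3b_toAF' _ _ hn.ne',
    ← h1, h.2]
  ring

/-- `Λ (prin + ψ)` -/
noncomputable def lwL (q : ℕ) (ψ : ℕ → ℝ) : ArithmeticFunction ℝ :=
  (toAF (prin q)).pmul vonMangoldt + (toAF ψ).pmul vonMangoldt

theorem lw_key {q : ℕ} {ψ : ℕ → ℝ} (h : RC q ψ) :
    (lwR q ψ).pmul ArithmeticFunction.log = lwL q ψ * lwR q ψ := by
  unfold lwR lwL
  rw [lw_D, lw_cm (bb3d_prin q), lw_cm h.cm]
  ring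

theorem lw_L_nonneg {q : ℕ} {ψ : ℕ → ℝ} (h : RC q ψ) (n : ℕ) : 0 ≤ lwL q ψ n := by
  rcases Nat.eq_zero_or_pos n with rfl | hn
  · simp
  unfold lwL
  rw [ArithmeticFunction.add_apply, ArithmeticFunction.pmul_apply, ArithmeticFunction.pmul_apply,
    ← add_mul, bb3b_toAF' _ _ hn.ne', bb3b_toAF' _ _ hn.ne']
  refine mul_nonneg ?_ ArithmeticFunction.vonMangoldt_nonneg
  unfold prin
  by_cases hc : n.Coprime q
  · rw [if_pos hc]
    rcases h.vals n with h1 | h1 | h1 <;> rw [h1] <;> norm_num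
  · rw [if_neg hc]
    have h1 : ψ n = 0 := by
      by_contra h2
      exact hc ((h.supp n).1 h2)
    rw [h1]; norm_num

theorem lw_L_prime {q : ℕ} {ψ : ℕ → ℝ} (h : RC q ψ) (p : ℕ) (hp : p.Prime) (h1 : ψ p = 1) :
    lwL q ψ p = 2 * Real.log p := by
  unfold lwL
  have hc : p.Coprime q := (h.supp p).1 (by rw [h1]; norm_num)
  rw [ArithmeticFunction.add_apply, ArithmeticFunction.pmul_apply, ArithmeticFunction.pmul_apply,
    bb3b_toAF' _ _ hp.ne_zero, bb3b_toAF' _ _ hp.ne_zero, h1,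
    ArithmeticFunction.vonMangoldt_apply_prime hp]
  unfold prin
  rw [if_pos hc]
  ring

/-- division by `n` -/
noncomputable def lwd (f : ArithmeticFunction ℝ) : ArithmeticFunction ℝ := ⟨fun n => f n / n, by simp⟩

theorem lwd_apply (f : ArithmeticFunction ℝ) (n : ℕ) : lwd f n = f n / n := rfl

theorem lwd_mul (f g : ArithmeticFunction ℝ) : lwd (f * g) = lwd f * lwd g := by
  ext n
  rw [lwd_apply, ArithmeticFunction.mul_apply, ArithmeticFunction.mul_apply, sum_div]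
  refine sum_congr rfl fun x hx => ?_
  rw [Nat.mem_divisorsAntidiagonal] at hx
  rw [lwd_apply, lwd_apply, ← hx.1, Nat.cast_mul, div_mul_div_comm]

/-- lower bound of the sum with logarithms -/
theorem lw_lower {q : ℕ} {ψ : ℕ → ℝ} (h : RC q ψ) (x : ℕ) (S : Finset ℕ)
    (hS : ∀ l ∈ S, l.Prime ∧ ψ l = 1 ∧ l ≤ x) :
    ∑ l ∈ S, 2 * Real.log l / l * ∑ k ∈ Ioc 0 (x / l), lwR q ψ k / k
      ≤ ∑ n ∈ Ioc 0 x, lwR q ψ n / n * Real.log n := by
  have h1 : ∑ n ∈ Ioc 0 x, lwR q ψ n / n * Real.log n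
      = ∑ d ∈ Ioc 0 x, lwL q ψ d / d * ∑ k ∈ Ioc 0 (x / d), lwR q ψ k / k := by
    have h2 := ArithmeticFunction.sum_Ioc_mul_eq_sum_sum (lwd (lwL q ψ)) (lwd (lwR q ψ)) x
    rw [← lwd_mul, ← lw_key h] at h2
    simp only [lwd_apply] at h2
    rw [← h2]
    refine sum_congr rfl fun n _ => ?_
    rw [ArithmeticFunction.pmul_apply, ArithmeticFunction.log_apply]
    ring
  rw [h1]
  have h2 : S ⊆ Ioc 0 x := fun l hl => mem_Ioc.2 ⟨(hS l hl).1.pos, (hS l hl).2.2⟩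
  refine le_trans (le_of_eq (sum_congr rfl fun l hl => ?_)) (sum_le_sum_of_subset_of_nonneg h2
    fun d _ _ => ?_)
  · rw [lw_L_prime h l (hS l hl).1 (hS l hl).2.1]
  · have h3 := lw_L_nonneg h d
    have h4 : 0 ≤ ∑ k ∈ Ioc 0 (x / d), lwR q ψ k / k :=
      sum_nonneg fun k _ => div_nonneg (lw_nonneg h k) (Nat.cast_nonneg k)
    positivity

/-! ### partial summation -/

theorem lw_tele (f : ℕ → ℝ) (x y : ℕ) (hxy : x ≤ y) :
    ∑ n ∈ Ioc x y, (f n - f (n + 1)) = f (x + 1) - f (y + 1) := by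
  induction y, hxy using Nat.le_induction with
  | base => simp
  | succ y hxy ih => rw [sum_Ioc_succ_top hxy, ih]; ring

theorem lw_G (q : ℕ) (r : ℕ → ℝ) (L : ℝ)
    (hr : ∀ y : ℕ, |∑ n ∈ Ioc 0 y, r n - L * y| ≤ 12 * q * √(y : ℝ)) (x y : ℕ) (hx : 1 ≤ x)
    (hxy : x ≤ y) : |∑ n ∈ Ioc x y, (r n - L) / n| ≤ 48 * q / √(x : ℝ) := by
  have hx0 : (0 : ℝ) < x := by exact_mod_cast hx
  have hA : ∀ n : ℕ, x ≤ n → |∑ i ∈ Ioc x n, (r i - L)| ≤ 24 * q * √(n : ℝ) := by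
    intro n hn
    have h1 : ∑ i ∈ Ioc x n, (r i - L) = (∑ i ∈ Ioc 0 n, r i - L * n) - (∑ i ∈ Ioc 0 x, r i - L * x) := by
      rw [← sum_Ioc_consecutive r (Nat.zero_le x) hn, sum_sub_distrib, sum_const, Nat.card_Ioc,
        nsmul_eq_mul, Nat.cast_sub hn]
      ring
    rw [h1]
    refine (abs_sub _ _).trans ?_
    have h2 := hr n
    have h3 := hr x
    have h4 : √(x : ℝ) ≤ √(n : ℝ) := Real.sqrt_le_sqrt (by exact_mod_cast hn)
    have h5 : 12 * (q : ℝ) * √(x : ℝ) ≤ 12 * q * √(n : ℝ) := by gcongr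
    linarith
  have h1 : ∑ n ∈ Ioc x y, (r n - L) / n = ∑ n ∈ Ioc x y, (r n - L) * (1 / (n : ℝ)) :=
    sum_congr rfl fun n _ => by rw [mul_one_div]
  rw [h1]
  have h2 := BB6a.abel_id (fun n => r n - L) (fun n : ℕ => 1 / (n : ℝ)) x y hxy
  simp only at h2
  rw [h2]
  have hstep : ∀ n : ℕ, x < n → √(n : ℝ) * (1 / (n : ℝ) - 1 / ((n + 1 : ℕ) : ℝ))
      ≤ 2 * (1 / √(n : ℝ) - 1 / √((n + 1 : ℕ) : ℝ)) := by
    intro n hn
    have hn0 : (0 : ℝ) < n := by exact_mod_cast (by omega : 0 < n)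
    have hn1 : (0 : ℝ) < ((n + 1 : ℕ) : ℝ) := by positivity
    set a := √(n : ℝ) with ha
    set b := √((n + 1 : ℕ) : ℝ) with hb
    have ha0 : 0 < a := Real.sqrt_pos.2 hn0
    have hb0 : 0 < b := Real.sqrt_pos.2 hn1
    have ea : (n : ℝ) = a ^ 2 := (Real.sq_sqrt hn0.le).symm
    have eb : ((n + 1 : ℕ) : ℝ) = b ^ 2 := (Real.sq_sqrt hn1.le).symm
    have hab : a ≤ b := Real.sqrt_le_sqrt (by push_cast; linarith)
    rw [ea, eb]
    have e1 : 2 * (1 / a - 1 / b) - a * (1 / a ^ 2 - 1 / b ^ 2) = (b - a) ^ 2 / (a * b ^ 2) := by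
      field_simp
      ring
    have e2 : 0 ≤ (b - a) ^ 2 / (a * b ^ 2) := by positivity
    linarith
  have h3 : |(∑ n ∈ Ioc x y, (r n - L)) * (1 / ((y + 1 : ℕ) : ℝ))| ≤ 24 * q * (1 / √((y + 1 : ℕ) : ℝ)) := by
    have hy1 : (0 : ℝ) < ((y + 1 : ℕ) : ℝ) := by positivity
    have hs : 0 < √((y + 1 : ℕ) : ℝ) := Real.sqrt_pos.2 hy1
    rw [abs_mul, abs_of_pos (by positivity : 0 < 1 / ((y + 1 : ℕ) : ℝ))]
    have h4 : √(y : ℝ) ≤ √((y + 1 : ℕ) : ℝ) := Real.sqrt_le_sqrt (by push_cast; linarith)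
    calc |∑ n ∈ Ioc x y, (r n - L)| * (1 / ((y + 1 : ℕ) : ℝ))
        ≤ 24 * q * √((y + 1 : ℕ) : ℝ) * (1 / ((y + 1 : ℕ) : ℝ)) := by
          gcongr
          exact (hA y hxy).trans (by gcongr)
      _ = 24 * q * (√((y + 1 : ℕ) : ℝ) / ((y + 1 : ℕ) : ℝ)) := by ring
      _ = _ := by rw [Real.sqrt_div_self', ]
  have h5 : |∑ n ∈ Ioc x y, (∑ i ∈ Ioc x n, (r i - L)) * (1 / (n : ℝ) - 1 / ((n + 1 : ℕ) : ℝ))|
      ≤ ∑ n ∈ Ioc x y, 48 * q * (1 / √(n : ℝ) - 1 / √((n + 1 : ℕ) : ℝ)) := by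
    refine (abs_sum_le_sum_abs _ _).trans (sum_le_sum fun n hn => ?_)
    rw [mem_Ioc] at hn
    have hn0 : (0 : ℝ) < n := by exact_mod_cast (by omega : 0 < n)
    have h6 : 0 ≤ 1 / (n : ℝ) - 1 / ((n + 1 : ℕ) : ℝ) := by
      rw [sub_nonneg]
      exact one_div_le_one_div_of_le hn0 (by push_cast; linarith)
    rw [abs_mul, abs_of_nonneg h6]
    calc |∑ i ∈ Ioc x n, (r i - L)| * (1 / (n : ℝ) - 1 / ((n + 1 : ℕ) : ℝ))
        ≤ 24 * q * √(n : ℝ) * (1 / (n : ℝ) - 1 / ((n + 1 : ℕ) : ℝ)) :=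
          mul_le_mul_of_nonneg_right (hA n hn.1.le) h6
      _ = 24 * q * (√(n : ℝ) * (1 / (n : ℝ) - 1 / ((n + 1 : ℕ) : ℝ))) := by ring
      _ ≤ 24 * q * (2 * (1 / √(n : ℝ) - 1 / √((n + 1 : ℕ) : ℝ))) :=
          mul_le_mul_of_nonneg_left (hstep n hn.1) (by positivity)
      _ = _ := by ring
  rw [← mul_sum, lw_tele (fun n : ℕ => 1 / √(n : ℝ)) x y hxy] at h5
  have h6 : 1 / √((x + 1 : ℕ) : ℝ) ≤ 1 / √(x : ℝ) :=
    one_div_le_one_div_of_le (Real.sqrt_pos.2 hx0) (Real.sqrt_le_sqrt (by push_cast; linarith))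
  have h7 : 0 ≤ (q : ℝ) * (1 / √((y + 1 : ℕ) : ℝ)) := by positivity
  have h8 : (q : ℝ) * (1 / √((x + 1 : ℕ) : ℝ)) ≤ q * (1 / √(x : ℝ)) := by gcongr
  have h9 : 48 * (q : ℝ) / √(x : ℝ) = 48 * (q * (1 / √(x : ℝ))) := by ring
  rw [h9]
  refine (abs_add_le _ _).trans ?_
  have h10 : 24 * (q : ℝ) * (1 / √((y + 1 : ℕ) : ℝ)) = 24 * (q * (1 / √((y + 1 : ℕ) : ℝ))) := by ring
  have h11 : 48 * (q : ℝ) * (1 / √((x + 1 : ℕ) : ℝ) - 1 / √((y + 1 : ℕ) : ℝ))
      = 48 * (q * (1 / √((x + 1 : ℕ) : ℝ))) - 48 * (q * (1 / √((y + 1 : ℕ) : ℝ))) := by ring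
  rw [h11] at h5
  rw [h10] at h3
  linarith

theorem lw_N (r : ℕ → ℝ) (L E : ℝ) (x₀ x : ℕ)
    (h : ∀ y, x₀ ≤ y → |∑ n ∈ Ioc x₀ y, (r n - L) / n| ≤ E) (hx : x₀ ≤ x) :
    |∑ n ∈ Ioc x₀ x, (r n - L) / n * Real.log n| ≤ 2 * E * Real.log (x + 1) := by
  have hE : 0 ≤ E := (abs_nonneg _).trans (h x₀ le_rfl)
  rw [BB6a.abel_id (fun n => (r n - L) / n) (fun n : ℕ => Real.log n) x₀ x hx]
  have h1 : |(∑ n ∈ Ioc x₀ x, (r n - L) / n) * Real.log ((x + 1 : ℕ) : ℝ)|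
      ≤ E * Real.log ((x + 1 : ℕ) : ℝ) := by
    rw [abs_mul, abs_of_nonneg (Real.log_natCast_nonneg _)]
    exact mul_le_mul_of_nonneg_right (h x hx) (Real.log_natCast_nonneg _)
  have h2 : |∑ n ∈ Ioc x₀ x, (∑ i ∈ Ioc x₀ n, (r i - L) / i) * (Real.log n - Real.log ((n + 1 : ℕ) : ℝ))|
      ≤ ∑ n ∈ Ioc x₀ x, E * (-Real.log n - -Real.log ((n + 1 : ℕ) : ℝ)) := by
    refine (abs_sum_le_sum_abs _ _).trans (sum_le_sum fun n hn => ?_)
    rw [mem_Ioc] at hn
    have hn0 : (0 : ℝ) < n := by exact_mod_cast (by omega : 0 < n)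
    have h3 : Real.log n ≤ Real.log ((n + 1 : ℕ) : ℝ) := Real.log_le_log hn0 (by push_cast; linarith)
    rw [abs_mul, abs_of_nonpos (by linarith : Real.log n - Real.log ((n + 1 : ℕ) : ℝ) ≤ 0)]
    have h4 := mul_le_mul_of_nonneg_right (h n hn.1.le) (by linarith : 0 ≤ -(Real.log n - Real.log ((n + 1 : ℕ) : ℝ)))
    refine h4.trans (le_of_eq ?_)
    ring
  rw [← mul_sum, lw_tele (fun n : ℕ => -Real.log n) x₀ x hx] at h2
  have h3 : 0 ≤ E * Real.log ((x₀ + 1 : ℕ) : ℝ) := mul_nonneg hE (Real.log_natCast_nonneg _)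
  refine (abs_add_le _ _).trans ?_
  have h4 : Real.log ((x + 1 : ℕ) : ℝ) = Real.log (x + 1) := by push_cast; rfl
  rw [h4] at h1 h2
  have h5 : E * (-Real.log ((x₀ + 1 : ℕ) : ℝ) - -Real.log (x + 1))
      = E * Real.log (x + 1) - E * Real.log ((x₀ + 1 : ℕ) : ℝ) := by ring
  rw [h5] at h2
  rw [h4]
  linarith

theorem lw_logdiv (x₀ x : ℕ) (h0 : 1 ≤ x₀) (h : x₀ ≤ x) :
    ∑ n ∈ Ioc x₀ x, Real.log n / n ≤ Real.log x ^ 2 / 2 + 1 := by
  have key : ∑ n ∈ Ioc x₀ x, Real.log n / n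
      ≤ (Real.log x ^ 2 - Real.log x₀ ^ 2) / 2 + (1 / (x₀ : ℝ) - 1 / x) := by
    induction x, h using Nat.le_induction with
    | base => simp
    | succ n hn ih =>
      rw [sum_Ioc_succ_top hn]
      have hn1 : (1 : ℝ) ≤ n := by exact_mod_cast h0.trans hn
      have hn0 : (0 : ℝ) < n := by linarith
      have hc : ((n + 1 : ℕ) : ℝ) = n + 1 := by push_cast; rfl
      rw [hc]
      set a := Real.log ((n : ℝ) + 1) with ha
      set b := Real.log (n : ℝ) with hb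
      have ha0 : 0 ≤ a := Real.log_nonneg (by linarith)
      have h1 : a - b = Real.log (1 + 1 / (n : ℝ)) := by
        rw [ha, hb, ← Real.log_div (by positivity) (by positivity)]
        congr 1
        field_simp
      have h2 : a - b ≤ 1 / n := by
        rw [h1]
        have := Real.log_le_sub_one_of_pos (show (0 : ℝ) < 1 + 1 / (n : ℝ) by positivity)
        linarith
      have h3 : 1 / ((n : ℝ) + 1) ≤ a - b := by
        have e1 : b - a = Real.log (n / (n + 1)) := by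
          rw [ha, hb, ← Real.log_div (by positivity) (by positivity)]
        have e2 := Real.log_le_sub_one_of_pos (show (0 : ℝ) < n / (n + 1) by positivity)
        rw [← e1] at e2
        have e3 : (n : ℝ) / (n + 1) - 1 = -(1 / (n + 1)) := by field_simp; ring
        rw [e3] at e2
        linarith
      have h4 : 0 ≤ a - b := le_trans (by positivity) h3
      have h5 : (a - b) ^ 2 ≤ (1 / (n : ℝ)) ^ 2 := by gcongr
      have h6 : (1 / (n : ℝ)) ^ 2 / 2 ≤ 1 / n - 1 / (n + 1) := by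
        have e1 : 1 / (n : ℝ) - 1 / (n + 1) - (1 / (n : ℝ)) ^ 2 / 2 = (n - 1) / (2 * n ^ 2 * (n + 1)) := by
          field_simp
          ring
        have e2 : 0 ≤ ((n : ℝ) - 1) / (2 * n ^ 2 * (n + 1)) :=
          div_nonneg (by linarith) (by positivity)
        linarith
      have h7 : a / (n + 1) ≤ a * (a - b) := by
        rw [div_eq_mul_one_div]
        exact mul_le_mul_of_nonneg_left h3 ha0
      have h8 : (a ^ 2 - Real.log x₀ ^ 2) / 2 = (b ^ 2 - Real.log x₀ ^ 2) / 2 + a * (a - b) - (a - b) ^ 2 / 2 := by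
        ring
      rw [h8]
      linarith
  have h1 : (1 : ℝ) / x₀ ≤ 1 := by
    rw [div_le_one (by exact_mod_cast h0)]
    exact_mod_cast h0
  have h2 : (0 : ℝ) ≤ 1 / x := by positivity
  have h3 : 0 ≤ Real.log x₀ ^ 2 := sq_nonneg _
  linarith

/-! ### the main inequality -/

theorem lw_main {q : ℕ} {ψ : ℕ → ℝ} (h : RC q ψ) (x₀ x : ℕ) (h0 : 4800 * (q : ℝ) ≤ √(x₀ : ℝ))
    (hx : x₀ ≤ x) : ∃ G L : ℝ, 1 ≤ G ∧ 0 ≤ L ∧ ∀ S : Finset ℕ,
    (∀ l ∈ S, l.Prime ∧ ψ l = 1 ∧ l * x₀ ≤ x) →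
    ∑ l ∈ S, 2 * Real.log l / l * (G - 1 / 100 + L * (Real.log x - Real.log l - Real.log (x₀ + 1)))
      ≤ Real.log x₀ * G + L * (Real.log x ^ 2 / 2 + 1) + 2 * (1 / 100) * Real.log (x + 1) := by
  have hq : 1 ≤ q := bb3b_one_le h
  have hq0 : (1 : ℝ) ≤ q := by exact_mod_cast hq
  have hs0 : 0 < √(x₀ : ℝ) := by linarith
  have hx₀ : 1 ≤ x₀ := by
    rcases Nat.eq_zero_or_pos x₀ with h1 | h1
    · rw [h1] at hs0; simp at hs0
    · exact h1
  have hx₀' : (1 : ℝ) ≤ x₀ := by exact_mod_cast hx₀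
  obtain ⟨v, hv0, hv⟩ := L_lower q hq ψ h
  set r : ℕ → ℝ := fun n => lwR q ψ n with hr
  set L : ℝ := (Nat.totient q : ℝ) / q * v with hL
  have hv1 : 0 ≤ v := le_trans (by positivity) hv0
  have hL0 : 0 ≤ L := by positivity
  have hR : ∀ y : ℕ, |∑ n ∈ Ioc 0 y, r n - L * y| ≤ 12 * q * √(y : ℝ) := fun y => bb3b_one_main h hv y
  have hE : ∀ y, x₀ ≤ y → |∑ n ∈ Ioc x₀ y, (r n - L) / n| ≤ 1 / 100 := by
    intro y hy
    refine (lw_G q r L hR x₀ y hx₀ hy).trans ?_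
    rw [div_le_iff₀ hs0]
    linarith
  have hN := lw_N r L (1 / 100) x₀ x hE hx
  have hr0 : ∀ n, 0 ≤ r n := fun n => lw_nonneg h n
  set G : ℝ := ∑ n ∈ Ioc 0 x₀, r n / n with hG
  have hG1 : 1 ≤ G := by
    have h1 : r 1 / ((1 : ℕ) : ℝ) ≤ G := by
      refine single_le_sum (f := fun n : ℕ => r n / n) (fun n _ => div_nonneg (hr0 n) (Nat.cast_nonneg n))
        (mem_Ioc.2 ⟨one_pos, hx₀⟩)
    have h2 : r 1 = 1 := lw_one h
    rw [h2] at h1
    simpa using h1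
  refine ⟨G, L, hG1, hL0, fun S hS => ?_⟩
  -- upper bound
  have hup : ∑ n ∈ Ioc 0 x, r n / n * Real.log n ≤ Real.log x₀ * G + L * (Real.log x ^ 2 / 2 + 1)
      + 2 * (1 / 100) * Real.log (x + 1) := by
    rw [← sum_Ioc_consecutive _ (Nat.zero_le x₀) hx]
    have h1 : ∑ n ∈ Ioc 0 x₀, r n / n * Real.log n ≤ Real.log x₀ * G := by
      rw [hG, mul_sum]
      refine sum_le_sum fun n hn => ?_
      rw [mem_Ioc] at hn
      rw [mul_comm]
      refine mul_le_mul_of_nonneg_right ?_ (div_nonneg (hr0 n) (Nat.cast_nonneg n))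
      exact Real.log_le_log (by exact_mod_cast hn.1) (by exact_mod_cast hn.2)
    have h2 : ∑ n ∈ Ioc x₀ x, r n / n * Real.log n
        = ∑ n ∈ Ioc x₀ x, (r n - L) / n * Real.log n + L * ∑ n ∈ Ioc x₀ x, Real.log n / n := by
      rw [mul_sum, ← sum_add_distrib]
      exact sum_congr rfl fun n _ => by ring
    have h3 := lw_logdiv x₀ x hx₀ hx
    have h4 := mul_le_mul_of_nonneg_left h3 hL0
    rw [h2]
    have h5 := (abs_le.1 hN).2
    linarith
  refine le_trans ?_ hup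
  refine le_trans ?_ (lw_lower h x S fun l hl => ⟨(hS l hl).1, (hS l hl).2.1,
    le_trans (Nat.le_mul_of_pos_right l hx₀) (hS l hl).2.2⟩)
  refine sum_le_sum fun l hl => ?_
  obtain ⟨hl1, hl2, hl3⟩ := hS l hl
  have hl0 : (0 : ℝ) < l := by exact_mod_cast hl1.pos
  have hlog : 0 ≤ Real.log l := Real.log_natCast_nonneg l
  refine mul_le_mul_of_nonneg_left ?_ (by positivity)
  have hy : x₀ ≤ x / l := by
    rw [Nat.le_div_iff_mul_le hl1.pos, mul_comm]
    exact hl3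
  have hxl : 1 ≤ x := hx₀.trans hx
  have hx0 : (0 : ℝ) < x := by exact_mod_cast hxl
  rw [← sum_Ioc_consecutive _ (Nat.zero_le x₀) hy]
  have h1 : ∑ n ∈ Ioc x₀ (x / l), lwR q ψ n / n
      = ∑ n ∈ Ioc x₀ (x / l), (r n - L) / n + L * ∑ n ∈ Ioc x₀ (x / l), 1 / (n : ℝ) := by
    rw [mul_sum, ← sum_add_distrib]
    refine sum_congr rfl fun n _ => ?_
    simp only [hr]
    ring
  rw [h1]
  have h2 := (abs_le.1 (hE (x / l) hy)).1
  have h3 : Real.log x - Real.log l - Real.log (x₀ + 1) ≤ ∑ n ∈ Ioc x₀ (x / l), 1 / (n : ℝ) := by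
    have e1 : ∑ n ∈ Ioc x₀ (x / l), (-Real.log n - -Real.log ((n + 1 : ℕ) : ℝ))
        ≤ ∑ n ∈ Ioc x₀ (x / l), 1 / (n : ℝ) := by
      refine sum_le_sum fun n hn => ?_
      rw [mem_Ioc] at hn
      have hn0 : (0 : ℝ) < n := by exact_mod_cast (by omega : 0 < n)
      have e2 : -Real.log n - -Real.log ((n + 1 : ℕ) : ℝ) = Real.log (1 + 1 / (n : ℝ)) := by
        rw [neg_sub_neg, ← Real.log_div (by positivity) (by positivity)]
        congr 1
        push_cast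
        field_simp
      rw [e2]
      have := Real.log_le_sub_one_of_pos (show (0 : ℝ) < 1 + 1 / (n : ℝ) by positivity)
      linarith
    rw [lw_tele (fun n : ℕ => -Real.log n) x₀ (x / l) hy] at e1
    refine le_trans ?_ e1
    have e3 : Real.log x - Real.log l ≤ Real.log ((x / l + 1 : ℕ) : ℝ) := by
      rw [← Real.log_div hx0.ne' hl0.ne']
      refine Real.log_le_log (by positivity) ?_
      rw [div_le_iff₀ hl0]
      have := Nat.lt_div_mul_add (a := x) hl1.pos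
      have e4 : x ≤ (x / l + 1) * l := by
        rw [add_mul, one_mul]
        exact this.le
      exact_mod_cast e4
    have e5 : Real.log ((x₀ + 1 : ℕ) : ℝ) = Real.log (x₀ + 1) := by push_cast; rfl
    rw [e5]
    linarith
  have h4 := mul_le_mul_of_nonneg_left h3 hL0
  have h5 : ∑ n ∈ Ioc 0 x₀, lwR q ψ n / n = G := rfl
  rw [h5]
  linarith

/-! ### the character -/

theorem lw_rc (m : ℕ) (hs : Squarefree m) (hm : m % 24 = 23) :
    RC (8 * m) (bb3eR (8 * m) fun n => jacobiSym (n : ℤ) m) := by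
  have hm0 : m ≠ 0 := by omega
  have hq : 1 ≤ 8 * m := by omega
  have ho : Odd m := by rw [Nat.odd_iff]; omega
  obtain ⟨p, hp, hpm⟩ := Nat.exists_prime_and_dvd (show m ≠ 1 by omega)
  have hp2 : p ≠ 2 := by
    rintro rfl
    exact (Nat.not_even_iff_odd.2 ho) (even_iff_two_dvd.2 hpm)
  have hpe : ¬ p ∣ 8 * (m / p) := by
    intro hd
    rcases (Nat.Prime.dvd_mul hp).1 hd with h | h
    · exact hp2 ((Nat.prime_dvd_prime_iff_eq hp Nat.prime_two).1
        (hp.dvd_of_dvd_pow (show p ∣ 2 ^ 3 from h)))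
    · obtain ⟨t, ht⟩ := h
      have h5 : p * p ∣ m := ⟨t, by rw [mul_assoc, ← ht, Nat.mul_div_cancel' hpm]⟩
      exact hp.one_lt.ne' (Nat.isUnit_iff.1 (hs p h5))
  obtain ⟨n1, hn1, hn1p, hn1j⟩ := exists_symbol m (8 * (m / p)) ho p hp hpm hpe ⟨8, by ring⟩
  have hn1c : n1.Coprime (8 * m) := by
    have h6 : n1.Coprime (8 * (m / p)) := by
      have := hn1.gcd_eq
      rw [Nat.gcd_one_left] at this
      exact this
    have h7 : 8 * m = 8 * (m / p) * p := by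
      rw [mul_assoc, Nat.div_mul_cancel hpm]
    rw [h7]
    exact Nat.Coprime.mul_right h6 hn1p
  exact (bb3e_jac m hm0).rc hq n1 hn1c hn1j

/-! ### primes in the window -/

theorem lw_PA_add (f : ℕ → ℝ) (a b c : ℕ) (hab : a ≤ b) (hbc : b ≤ c) :
    ∑ p ∈ PA a c, f p = ∑ p ∈ PA a b, f p + ∑ p ∈ PA b c, f p := by
  unfold PA
  rw [sum_filter, sum_filter, sum_filter, sum_Ioc_consecutive _ hab hbc]

theorem lw_cube (b : ℕ) (hb : 1000 ≤ b) : 400 * b ^ 2 ≤ 2 ^ b := by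
  have h : b ^ 3 ≤ 2 ^ b := by
    induction b, hb using Nat.le_induction with
    | base => 
      have h1 : (1000 : ℕ) ^ 3 ≤ 2 ^ 30 := by norm_num
      exact h1.trans (Nat.pow_le_pow_right (by norm_num) (by omega))
    | succ n hn ih =>
      have h1 : (n + 1) ^ 3 ≤ 2 * n ^ 3 := by
        nlinarith [Nat.mul_le_mul hn hn]
      calc (n + 1) ^ 3 ≤ 2 * n ^ 3 := h1
        _ ≤ 2 * 2 ^ n := Nat.mul_le_mul_left 2 ih
        _ = 2 ^ (n + 1) := by rw [pow_succ]; ring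
  refine le_trans ?_ h
  calc 400 * b ^ 2 ≤ b * b ^ 2 := Nat.mul_le_mul_right _ (by omega)
    _ = b ^ 3 := by ring

theorem lw_logpow (b k : ℕ) : Real.log ((2 ^ (k * b) : ℕ) : ℝ) = k * (b * Real.log 2) := by
  rw [Nat.cast_pow, Real.log_pow]
  push_cast
  ring

theorem lw_v (b : ℕ) (hb : 1000 ≤ b) : 690 ≤ (b : ℝ) * Real.log 2 ∧ (b : ℝ) * Real.log 2 ≤ b := by
  have h1 := Real.log_two_gt_d9
  have h2 := Real.log_two_lt_d9
  have h3 : (1000 : ℝ) ≤ b := by exact_mod_cast hb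
  constructor <;> nlinarith

theorem lw_block (b k : ℕ) (hb : 1000 ≤ b) (hk : 2 ≤ k) (hk9 : k ≤ 9) :
    98 / 100 * (b * Real.log 2) ≤ ∑ p ∈ PA (2 ^ (k * b)) (2 ^ ((k + 1) * b)), Real.log p / p := by
  obtain ⟨hv1, hv2⟩ := lw_v b hb
  set v := (b : ℝ) * Real.log 2 with hv
  have hb0 : (0 : ℝ) < b := by exact_mod_cast (by omega : 0 < b)
  have hV1 : 1 ≤ 2 ^ (k * b) := Nat.one_le_two_pow
  have hVW : 2 ^ (k * b) ≤ 2 ^ ((k + 1) * b) := Nat.pow_le_pow_right (by norm_num) (by nlinarith)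
  have h1 := BB6a.T_approx (fun _ => 1) (fun _ => by simp) _ _ hV1 hVW
  simp only [one_mul, BB6a.T] at h1
  have h2 := (BB6a.mertens _ hV1).2
  have h3 := (BB6a.mertens _ (hV1.trans hVW)).1
  rw [lw_logpow] at h2 h3 h1
  rw [← hv] at h1 h2 h3
  have hV0 : (0 : ℝ) < ((2 ^ (k * b) : ℕ) : ℝ) := by positivity
  have hW : √((2 ^ ((k + 1) * b) : ℕ) : ℝ) ≤ ((2 ^ (k * b) : ℕ) : ℝ) / (20 * b) := by
    rw [Real.sqrt_le_left (by positivity), div_pow, le_div_iff₀ (by positivity)]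
    have e1 : 2 ^ ((k + 1) * b) * (20 * b) ^ 2 ≤ (2 ^ (k * b)) ^ 2 := by
      calc 2 ^ ((k + 1) * b) * (20 * b) ^ 2 = 2 ^ ((k + 1) * b) * (400 * b ^ 2) := by ring
        _ ≤ 2 ^ ((k + 1) * b) * 2 ^ b := Nat.mul_le_mul_left _ (lw_cube b hb)
        _ = 2 ^ ((k + 1) * b + b) := by rw [pow_add]
        _ ≤ 2 ^ (k * b * 2) := Nat.pow_le_pow_right (by norm_num) (by nlinarith)
        _ = _ := by rw [pow_mul]
    exact_mod_cast e1
  have hk1 : (((k + 1 : ℕ)) : ℝ) ≤ 10 := by exact_mod_cast (by omega : k + 1 ≤ 10)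
  have h4 : 2 * √((2 ^ ((k + 1) * b) : ℕ) : ℝ) * (((k + 1 : ℕ) : ℝ) * v) / ((2 ^ (k * b) : ℕ) : ℝ) ≤ 1 := by
    rw [div_le_iff₀ hV0, one_mul]
    calc 2 * √((2 ^ ((k + 1) * b) : ℕ) : ℝ) * (((k + 1 : ℕ) : ℝ) * v)
        ≤ 2 * (((2 ^ (k * b) : ℕ) : ℝ) / (20 * b)) * (10 * b) := by gcongr
      _ = _ := by field_simp; ring
  have h5 := (abs_le.1 (h1.trans h4)).2
  push_cast at h3 h5 h2 ⊢
  linarith

theorem lw_total (b : ℕ) (hb : 1000 ≤ b) : hs (PA (2 ^ b) (2 ^ (10 * b))) ≤ 10 := by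
  obtain ⟨hv1, hv2⟩ := lw_v b hb
  set v := (b : ℝ) * Real.log 2 with hv
  have hV1 : 1 ≤ 2 ^ b := Nat.one_le_two_pow
  have hVW : 2 ^ b ≤ 2 ^ (10 * b) := Nat.pow_le_pow_right (by norm_num) (by omega)
  have h2 := (BB6a.mertens _ hV1).1
  have h3 := (BB6a.mertens _ (hV1.trans hVW)).2
  have e1 := lw_logpow b 1
  rw [one_mul] at e1
  rw [e1] at h2
  rw [lw_logpow] at h3
  rw [← hv] at h2 h3
  rw [← sum_Ioc_consecutive _ (Nat.zero_le _) hVW] at h3
  have h4 : v * hs (PA (2 ^ b) (2 ^ (10 * b))) ≤ ∑ n ∈ Ioc (2 ^ b) (2 ^ (10 * b)), vonMangoldt n / n := by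
    unfold hs PA
    rw [mul_sum]
    refine le_trans (sum_le_sum fun p hp => ?_) (sum_le_sum_of_subset_of_nonneg (filter_subset _ _)
      fun n _ _ => div_nonneg ArithmeticFunction.vonMangoldt_nonneg (Nat.cast_nonneg n))
    rw [mem_filter, mem_Ioc] at hp
    rw [ArithmeticFunction.vonMangoldt_apply_prime hp.2, mul_one_div]
    have h5 : v ≤ Real.log p := by
      have : ((2 ^ b : ℕ) : ℝ) ≤ p := by exact_mod_cast hp.1.1.le
      have h6 := Real.log_le_log (by positivity) this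
      rw [e1] at h6
      push_cast at h6
      linarith
    gcongr
  push_cast at h2 h3 h4
  nlinarith

/-- sum over the blocks -/
theorem lw_blocks (f : ℕ → ℝ) (b : ℕ) : ∑ p ∈ PA (2 ^ (2 * b)) (2 ^ (10 * b)), f p
    = ∑ k ∈ Ico 2 10, ∑ p ∈ PA (2 ^ (k * b)) (2 ^ ((k + 1) * b)), f p := by
  have h : ∀ k : ℕ, 2 ≤ k → ∑ p ∈ PA (2 ^ (2 * b)) (2 ^ (k * b)), f p
      = ∑ k ∈ Ico 2 k, ∑ p ∈ PA (2 ^ (k * b)) (2 ^ ((k + 1) * b)), f p := by
    intro k hk
    induction k, hk using Nat.le_induction with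
    | base => simp [PA]
    | succ k hk ih =>
      rw [sum_Ico_succ_top hk, ← ih]
      exact lw_PA_add f _ _ _ (Nat.pow_le_pow_right (by norm_num) (Nat.mul_le_mul_right b hk))
        (Nat.pow_le_pow_right (by norm_num) (Nat.mul_le_mul_right b (by omega)))
  exact h 10 (by norm_num)

/-! ### the theorem -/

theorem lw_size (m b : ℕ) (hb : 1000 ≤ b) (hm : 1 ≤ m) (h : m ^ 40 ≤ 2 ^ b) :
    Real.log (((38400 * m) ^ 2 : ℕ) : ℝ) ≤ 9 / 100 * (b * Real.log 2) ∧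
    Real.log ((((38400 * m) ^ 2 : ℕ) : ℝ) + 1) ≤ 1 / 10 * (b * Real.log 2) := by
  have hm0 : (1 : ℝ) ≤ m := by exact_mod_cast hm
  have hb0 : (1000 : ℝ) ≤ b := by exact_mod_cast hb
  have hl2 : 0 < Real.log 2 := Real.log_pos (by norm_num)
  have h1 : 40 * Real.log m ≤ b * Real.log 2 := by
    have h2 : ((m ^ 40 : ℕ) : ℝ) ≤ ((2 ^ b : ℕ) : ℝ) := by exact_mod_cast h
    have h3 := Real.log_le_log (by positivity) h2
    push_cast at h3
    rw [Real.log_pow, Real.log_pow] at h3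
    push_cast at h3
    exact h3
  have h2 : Real.log 38400 ≤ 16 * Real.log 2 := by
    have h3 := Real.log_le_log (by norm_num) (by norm_num : (38400 : ℝ) ≤ 2 ^ 16)
    rw [Real.log_pow] at h3
    push_cast at h3
    exact h3
  have h3 : Real.log (((38400 * m) ^ 2 : ℕ) : ℝ) = 2 * (Real.log 38400 + Real.log m) := by
    push_cast
    rw [Real.log_pow, Real.log_mul (by norm_num) (by positivity)]
    push_cast; ring
  have h4 : Real.log ((((38400 * m) ^ 2 : ℕ) : ℝ) + 1) ≤ Real.log 2 + Real.log (((38400 * m) ^ 2 : ℕ) : ℝ) := by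
    rw [← Real.log_mul (by norm_num) (by positivity)]
    refine Real.log_le_log (by positivity) ?_
    have : (1 : ℝ) ≤ (((38400 * m) ^ 2 : ℕ) : ℝ) := by
      have h5 : 1 ≤ (38400 * m) ^ 2 := Nat.one_le_pow _ _ (by omega)
      exact_mod_cast h5
    linarith
  rw [h3] at h4 ⊢
  constructor
  · nlinarith
  · nlinarith

theorem longwin : ∃ (A B b₀ : ℕ) (ρ : ℝ), 1 ≤ A ∧ 2 ≤ B ∧ 0 < ρ ∧ ρ ≤ 1 ∧ ∀ m b : ℕ, b₀ ≤ b →
    m % 24 = 23 → Squarefree m → m ^ A ≤ 2 ^ b →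
    hs ((PA (2 ^ b) (2 ^ (B * b))).filter fun ℓ => J ℓ m ≠ -1)
      ≤ (1 - ρ) * hs (PA (2 ^ b) (2 ^ (B * b))) := by
  refine ⟨40, 10, 1000, 1 / 1000, by norm_num, by norm_num, by norm_num, by norm_num,
    fun m b hb hm hsq hmA => ?_⟩
  by_contra hcon
  rw [not_le] at hcon
  have hm1 : 1 ≤ m := by omega
  have hmV : m ≤ 2 ^ b := le_trans (Nat.le_self_pow (by norm_num) m) hmA
  obtain ⟨hv1, hv2⟩ := lw_v b hb
  obtain ⟨hx1, hx2⟩ := lw_size m b hb hm1 hmA
  set v := (b : ℝ) * Real.log 2 with hv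
  set x₀ : ℕ := (38400 * m) ^ 2 with hx₀
  have hlogV : Real.log ((2 ^ b : ℕ) : ℝ) = v := by
    have := lw_logpow b 1
    rw [one_mul] at this
    rw [this, hv]; push_cast; ring
  have hx₀0 : 0 < x₀ := by positivity
  have hx₀V : x₀ ≤ 2 ^ b := by
    have h1 : Real.log (x₀ : ℝ) ≤ Real.log ((2 ^ b : ℕ) : ℝ) := by
      rw [hlogV]; linarith
    have h2 := (Real.log_le_log_iff (by exact_mod_cast hx₀0) (by positivity)).1 h1
    exact_mod_cast h2
  -- the set of primes with symbol `-1`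
  set M := (PA (2 ^ b) (2 ^ (10 * b))).filter fun ℓ => J ℓ m = -1 with hM
  have hMs : hs M ≤ 1 / 100 := by
    have h1 : hs (PA (2 ^ b) (2 ^ (10 * b))) = hs M
        + hs ((PA (2 ^ b) (2 ^ (10 * b))).filter fun ℓ => J ℓ m ≠ -1) := by
      unfold hs
      rw [hM, sum_filter_add_sum_filter_not]
    have h2 := lw_total b hb
    linarith
  -- the good primes
  set P := PA (2 ^ (2 * b)) (2 ^ (10 * b)) with hP
  set S := P.filter fun ℓ => J ℓ m ≠ -1 with hS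
  have hPmem : ∀ l ∈ P, l.Prime ∧ 2 ^ (2 * b) < l ∧ l ≤ 2 ^ (10 * b) := by
    intro l hl
    rw [hP, PA, mem_filter, mem_Ioc] at hl
    exact ⟨hl.2, hl.1⟩
  have hV2 : 2 ^ b ≤ 2 ^ (2 * b) := Nat.pow_le_pow_right (by norm_num) (by omega)
  have hV8 : 8 ≤ 2 ^ b := le_trans (by norm_num : 8 ≤ 2 ^ 3) (Nat.pow_le_pow_right (by norm_num) (by omega))
  have hx₀x : x₀ ≤ 2 ^ (11 * b) := hx₀V.trans (Nat.pow_le_pow_right (by norm_num) (by omega))
  have hsq0 : 4800 * ((8 * m : ℕ) : ℝ) ≤ √(x₀ : ℝ) := by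
    rw [hx₀]
    push_cast
    rw [Real.sqrt_sq (by positivity)]
    linarith
  obtain ⟨G, L, hG, hL, hmain⟩ := lw_main (lw_rc m hsq hm) x₀ (2 ^ (11 * b)) hsq0 hx₀x
  have hcop : ∀ l ∈ P, l.Coprime (8 * m) := by
    intro l hl
    obtain ⟨h1, h2, h3⟩ := hPmem l hl
    rw [Nat.Prime.coprime_iff_not_dvd h1]
    intro h4
    rcases (Nat.Prime.dvd_mul h1).1 h4 with h5 | h5
    · have := Nat.le_of_dvd (by norm_num) h5
      omega
    · have := Nat.le_of_dvd (by omega) h5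
      omega
  have hmain' := hmain S (by
    intro l hl
    rw [hS, mem_filter] at hl
    obtain ⟨h1, h2, h3⟩ := hPmem l hl.1
    refine ⟨h1, ?_, ?_⟩
    · unfold bb3eR
      rw [if_pos (hcop l hl.1)]
      rcases jacobiSym.eq_one_or_neg_one (a := (l : ℤ)) (b := m) (by
        rw [Int.gcd_natCast_natCast]
        exact Nat.Coprime.coprime_mul_left_right (hcop l hl.1)) with h4 | h4
      · show ((jacobiSym (l : ℤ) m : ℤ) : ℝ) = 1
        rw [h4]; norm_num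
      · exfalso
        apply hl.2
        unfold J
        rw [h4]; norm_num
    · calc l * x₀ ≤ 2 ^ (10 * b) * 2 ^ b := Nat.mul_le_mul h3 hx₀V
        _ = 2 ^ (11 * b) := by rw [← pow_add]; congr 1; ring)
  rw [lw_logpow, ← hv] at hmain'
  -- the weight
  set w : ℕ → ℝ := fun l => G - 1 / 100 + L * (((11 : ℕ) : ℝ) * v - Real.log l - Real.log (x₀ + 1)) with hw
  have hlogl : ∀ l ∈ P, 0 ≤ Real.log l ∧ Real.log l ≤ 10 * v := by
    intro l hl
    obtain ⟨h1, h2, h3⟩ := hPmem l hl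
    refine ⟨Real.log_natCast_nonneg l, ?_⟩
    have h4 : (l : ℝ) ≤ ((2 ^ (10 * b) : ℕ) : ℝ) := by exact_mod_cast h3
    have h5 := Real.log_le_log (by exact_mod_cast h1.pos) h4
    rw [lw_logpow, ← hv] at h5
    push_cast at h5
    exact h5
  have hxl0 : 0 ≤ Real.log ((x₀ : ℝ) + 1) := Real.log_nonneg (by
    have : (0 : ℝ) ≤ x₀ := Nat.cast_nonneg _
    linarith)
  have hv0 : 0 < v := by linarith
  -- lower bound of the left side
  have h1 : ∑ l ∈ P, 2 * Real.log l / l * w l - (1 / 5 * v * G + 22 / 10 * v ^ 2 * L)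
      ≤ ∑ l ∈ S, 2 * Real.log l / l * w l := by
    have h2 : ∑ l ∈ P, 2 * Real.log l / l * w l = ∑ l ∈ P.filter (fun ℓ => J ℓ m = -1), 2 * Real.log l / l * w l
        + ∑ l ∈ S, 2 * Real.log l / l * w l := by
      rw [hS]
      exact (sum_filter_add_sum_filter_not P (fun ℓ => J ℓ m = -1) _).symm
    have h3 : ∑ l ∈ P.filter (fun ℓ => J ℓ m = -1), 2 * Real.log l / l * w l
        ≤ ∑ l ∈ M, 1 / (l : ℝ) * (20 * v * (G + 11 * v * L)) := by
      have hsub : P.filter (fun ℓ => J ℓ m = -1) ⊆ M := by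
        intro l hl
        rw [mem_filter] at hl
        obtain ⟨h4, h5, h6⟩ := hPmem l hl.1
        rw [hM, mem_filter, PA, mem_filter, mem_Ioc]
        exact ⟨⟨⟨by omega, h6⟩, h4⟩, hl.2⟩
      refine le_trans (sum_le_sum fun l hl => ?_) (sum_le_sum_of_subset_of_nonneg hsub fun l _ _ => by positivity)
      rw [mem_filter] at hl
      obtain ⟨h4, h5⟩ := hlogl l hl.1
      have hw1 : w l ≤ G + 11 * v * L := by
        rw [hw]
        simp only
        push_cast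
        have : L * (11 * v - Real.log l - Real.log (x₀ + 1)) ≤ L * (11 * v) :=
          mul_le_mul_of_nonneg_left (by linarith) hL
        linarith
      have e1 : 2 * Real.log l / l = 1 / (l : ℝ) * (2 * Real.log l) := by ring
      rw [e1, mul_assoc]
      refine mul_le_mul_of_nonneg_left ?_ (by positivity)
      calc 2 * Real.log l * w l ≤ 2 * Real.log l * (G + 11 * v * L) :=
            mul_le_mul_of_nonneg_left hw1 (by linarith)
        _ ≤ 20 * v * (G + 11 * v * L) := mul_le_mul_of_nonneg_right (by linarith) (by positivity)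
    rw [← sum_mul] at h3
    have h4 : (∑ l ∈ M, 1 / (l : ℝ)) * (20 * v * (G + 11 * v * L)) ≤ 1 / 100 * (20 * v * (G + 11 * v * L)) :=
      mul_le_mul_of_nonneg_right hMs (by positivity)
    have e2 : 1 / 100 * (20 * v * (G + 11 * v * L)) = 1 / 5 * v * G + 22 / 10 * v ^ 2 * L := by ring
    linarith
  have h2 : (G - 1 / 100) * (1568 / 100 * v) + L * (8624 / 125 * v ^ 2) ≤ ∑ l ∈ P, 2 * Real.log l / l * w l := by
    rw [hP, lw_blocks]
    have h3 : ∀ k ∈ Ico 2 10, 196 / 100 * v * (G - 1 / 100 + L * ((10 - k - 1 / 10) * v))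
        ≤ ∑ p ∈ PA (2 ^ (k * b)) (2 ^ ((k + 1) * b)), 2 * Real.log p / p * w p := by
      intro k hk
      rw [mem_Ico] at hk
      have hk9 : (k : ℝ) ≤ 9 := by exact_mod_cast (by omega : k ≤ 9)
      have h4 := lw_block b k hb hk.1 (by omega)
      rw [← hv] at h4
      have h5 : (0 : ℝ) ≤ G - 1 / 100 + L * ((10 - k - 1 / 10) * v) := by
        have : 0 ≤ L * ((10 - k - 1 / 10) * v) := mul_nonneg hL (mul_nonneg (by linarith) hv0.le)
        linarith
      calc 196 / 100 * v * (G - 1 / 100 + L * ((10 - k - 1 / 10) * v))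
          = 2 * (98 / 100 * v) * (G - 1 / 100 + L * ((10 - k - 1 / 10) * v)) := by ring
        _ ≤ 2 * (∑ p ∈ PA (2 ^ (k * b)) (2 ^ ((k + 1) * b)), Real.log p / p)
            * (G - 1 / 100 + L * ((10 - k - 1 / 10) * v)) := by gcongr
        _ = ∑ p ∈ PA (2 ^ (k * b)) (2 ^ ((k + 1) * b)), 2 * Real.log p / p
            * (G - 1 / 100 + L * ((10 - k - 1 / 10) * v)) := by
            rw [mul_sum, sum_mul]
            exact sum_congr rfl fun p _ => by ring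
        _ ≤ _ := by
            refine sum_le_sum fun p hp => ?_
            rw [PA, mem_filter, mem_Ioc] at hp
            have h6 : Real.log p ≤ (k + 1) * v := by
              have h7 : (p : ℝ) ≤ ((2 ^ ((k + 1) * b) : ℕ) : ℝ) := by exact_mod_cast hp.1.2
              have h8 := Real.log_le_log (by exact_mod_cast hp.2.pos) h7
              rw [lw_logpow, ← hv] at h8
              push_cast at h8
              exact h8
            have h9 := Real.log_natCast_nonneg p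
            refine mul_le_mul_of_nonneg_left ?_ (by positivity)
            rw [hw]
            simp only
            have h10 : L * ((10 - k - 1 / 10) * v) ≤ L * (((11 : ℕ) : ℝ) * v - Real.log p - Real.log (x₀ + 1)) := by
              refine mul_le_mul_of_nonneg_left ?_ hL
              push_cast
              linarith
            linarith
    refine le_trans (le_of_eq ?_) (sum_le_sum h3)
    rw [show Ico 2 10 = ({2, 3, 4, 5, 6, 7, 8, 9} : Finset ℕ) by rfl]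
    norm_num
    ring
  have h3 : Real.log (((2 ^ (11 * b) : ℕ) : ℝ) + 1) ≤ 11 * v + 1 := by
    have h4 : ((2 ^ (11 * b) : ℕ) : ℝ) + 1 ≤ 2 * ((2 ^ (11 * b) : ℕ) : ℝ) := by
      have : (1 : ℝ) ≤ ((2 ^ (11 * b) : ℕ) : ℝ) := by exact_mod_cast Nat.one_le_two_pow
      linarith
    have h5 := Real.log_le_log (by positivity) h4
    rw [Real.log_mul (by norm_num) (by positivity), lw_logpow, ← hv] at h5
    have h6 := Real.log_two_lt_d9
    push_cast at h5 ⊢
    linarith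
  have hm2 : ∑ l ∈ S, 2 * Real.log l / l * w l ≤ Real.log x₀ * G + L * ((((11 : ℕ) : ℝ) * v) ^ 2 / 2 + 1)
      + 2 * (1 / 100) * Real.log (((2 ^ (11 * b) : ℕ) : ℝ) + 1) := hmain'
  clear hmain'
  push_cast at hm2 h3
  have h4 : (G - 1 / 100) * (1568 / 100 * v) + L * (8624 / 125 * v ^ 2)
      - (1 / 5 * v * G + 22 / 10 * v ^ 2 * L) ≤ Real.log x₀ * G + L * ((11 * v) ^ 2 / 2 + 1)
        + 2 * (1 / 100) * Real.log (2 ^ (11 * b) + 1) := by
    push_cast at h1 h2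
    linarith
  have h5 : Real.log x₀ * G ≤ 9 / 100 * v * G := mul_le_mul_of_nonneg_right hx1 (by linarith)
  have h6 : 0 ≤ L * (v ^ 2 - 1) := mul_nonneg hL (by nlinarith)
  have h7 : v ≤ G * v := by nlinarith
  nlinarith

end Pool.Agent.helper7.JT
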